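import Pool.Agent.H26.Wrap

/-!
MODULE T of MP_b2fb47_al: `o k R` is invariant under ring isomorphisms.
-/

namespace Pool.Agent.H38.B2

universe u

open CategoryTheory CategoryTheory.Abelian CategoryTheory.Limits Pool.Agent.H26

theorem indecomposable_map {C D : Type*} [Category* C] [Category* D] [Abelian C] [Abelian D]
    (E : C ≌ D) [E.functor.Additive] {N : C} (hN : Indecomposable N) :
    Indecomposable (E.functor.obj N) := by
  constructor
  · intro h
    exact hN.1 (IsZero.of_full_of_faithful_of_isZero E.functor N h)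
  · intro Y Z e
    have := preservesBinaryBiproduct_of_preservesBinaryProduct (X := Y) (Y := Z) E.inverse
    have e1 : N ≅ E.inverse.obj Y ⊞ E.inverse.obj Z :=
      E.unitIso.app N ≪≫ E.inverse.mapIso e ≪≫ E.inverse.mapBiprod Y Z
    rcases hN.2 _ _ e1 with h | h
    · exact Or.inl (IsZero.of_full_of_faithful_of_isZero E.inverse Y h)
    · exact Or.inr (IsZero.of_full_of_faithful_of_isZero E.inverse Z h)

theorem o_le_of_equiv {R R' : Type u} [Ring R] [Ring R'] (e : R ≃+* R') (k : ℕ) :
    o k R' ≤ o k R := by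
  let E := ModuleCat.restrictScalarsEquivalenceOfRingEquiv.{u} e
  have : E.functor.Additive := ModuleCat.restrictScalarsEquivalenceOfRingEquiv_additive e
  unfold o
  refine iSup_le fun ⟨M, hfin, hrig⟩ => ?_
  have hfin' : Module.Finite R (E.functor.obj M) := by
    have : RingHomSurjective (e.symm : R' →+* R) := ⟨e.symm.surjective⟩
    let f : M →ₛₗ[(e.symm : R' →+* R)] (E.functor.obj M) :=
      { toFun := fun x => x
        map_add' := fun _ _ => rfl
        map_smul' := fun r x => by
          have h2 : e.toRingHom (e.symm r) = r := e.apply_symm_apply r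
          change r • x = e.toRingHom (e.symm r) • x
          rw [h2] }
    exact Module.Finite.of_surjective f (fun x => ⟨x, rfl⟩)
  have hrig' : IsRigid k (E.functor.obj M) := by
    intro i h1 h2
    have := hrig i h1 h2
    have hb := E.functor.mapExt_bijective_of_preservesProjectiveObjects M M i
    exact hb.2.subsingleton
  refine le_trans ?_ (le_iSup (fun M : {M : ModuleCat.{u} R // Module.Finite R M ∧ IsRigid k M} =>
    size M.1) ⟨E.functor.obj M, hfin', hrig'⟩)
  unfold size
  let g : Quotient (isIsomorphicSetoid (ModuleCat.{u} R')) →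
      Quotient (isIsomorphicSetoid (ModuleCat.{u} R)) :=
    Quotient.map E.functor.obj (fun a b ⟨i⟩ => ⟨E.functor.mapIso i⟩)
  refine Set.encard_le_encard_of_injOn (f := g) ?_ ?_
  · rintro c ⟨N, hN, ⟨r⟩, rfl⟩
    exact ⟨E.functor.obj N, indecomposable_map E hN, ⟨r.map E.functor⟩, rfl⟩
  · rintro c ⟨N, hN, ⟨r⟩, rfl⟩ c' ⟨N', hN', ⟨r'⟩, rfl⟩ h
    have h' : isoClass (E.functor.obj N) = isoClass (E.functor.obj N') := h
    obtain ⟨i⟩ := Quotient.exact h'
    exact Quotient.sound ⟨E.functor.preimageIso i⟩

/-- MODULE T. -/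
theorem o_congr {R R' : Type u} [Ring R] [Ring R'] (e : R ≃+* R') (k : ℕ) :
    o k R = o k R' :=
  le_antisymm (o_le_of_equiv e.symm k) (o_le_of_equiv e k)

end Pool.Agent.H38.B2
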