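import Pool.Agent.H38.B2.Idem

/-!
MODULE R0 of MP_b2fb47_al: surjectivity and exactness at the augmentation.
-/

set_option linter.unusedSectionVars false
set_option linter.unusedSimpArgs false

namespace Pool.Agent.H38.B2

open Matrix

universe u
variable {K : Type u} [Field K]

namespace R0aux

variable {n : ℕ}

theorem sum_single (s : Fin (n + 1) → K) : ∑ k, s k • (Pi.single k (1 : K) : Fin (n + 1) → K) = s :=
  (pi_eq_sum_univ' s).symm

theorem sum_single_mulVec (Y : Matrix (Fin (n + 1)) (Fin (n + 1)) K) (s : Fin (n + 1) → K) :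
    ∑ k, s k • (Y *ᵥ (Pi.single k (1 : K) : Fin (n + 1) → K)) = Y *ᵥ s := by
  conv_rhs => rw [← sum_single s]
  rw [Matrix.mulVec_sum]
  simp only [Matrix.mulVec_smul]

theorem gen_a (k : Fin (n + 1)) : (gen k : V K n) .a = Pi.single k 1 := rfl
theorem gen_b1 (k : Fin (n + 1)) : (gen k : V K n) .b1 = 0 := rfl
theorem gen_b2 (k : Fin (n + 1)) : (gen k : V K n) .b2 = 0 := rfl
theorem gen_b3 (k : Fin (n + 1)) : (gen k : V K n) .b3 = 0 := rfl
theorem gen_c1 (k : Fin (n + 1)) : (gen k : V K n) .c1 = 0 := rfl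
theorem gen_c2 (k : Fin (n + 1)) : (gen k : V K n) .c2 = 0 := rfl
theorem gen_c3 (k : Fin (n + 1)) : (gen k : V K n) .c3 = 0 := rfl
theorem gen_t (k : Fin (n + 1)) : (gen k : V K n) .t = 0 := rfl

theorem sum_apply' {ι : Type*} (s : Finset ι) (f : ι → V K n) (i : Vx) :
    (∑ k ∈ s, f k) i = ∑ k ∈ s, f k i := Finset.sum_apply _ _ _

variable (f : Fin (n + 1) → AA K)

theorem augF_eq (i : Vx) : augF n f i = ∑ k, ((c11 f k : A0 K) • (gen k : V K n)) i := by
  have h : augF n f = ∑ k, ((c11 f k : A0 K) • (gen k : V K n)) := rfl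
  rw [h, sum_apply']

theorem aug_a : augF n f .a = co .d0 (c11 f) := by
  rw [augF_eq]
  simp only [V.sm_a, gen_a]
  exact sum_single (co .d0 (c11 f))

theorem aug_b1 : augF n f .b1 = co .p01u1 (c11 f) + y1 K n *ᵥ co .p01s (c11 f) := by
  rw [augF_eq, ← sum_single (co .p01u1 (c11 f)), ← sum_single_mulVec _ (co .p01s (c11 f))]
  simp only [V.sm_b1, gen_a, gen_b1, smul_zero, zero_add, Finset.sum_add_distrib]
  rfl

theorem aug_b2 : augF n f .b2 = co .p01u2 (c11 f) + y2 K n *ᵥ co .p01s (c11 f) := by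
  rw [augF_eq, ← sum_single (co .p01u2 (c11 f)), ← sum_single_mulVec _ (co .p01s (c11 f))]
  simp only [V.sm_b2, gen_a, gen_b2, smul_zero, zero_add, Finset.sum_add_distrib]
  rfl

theorem aug_b3 : augF n f .b3 = co .p01u3 (c11 f) + y3 K n *ᵥ co .p01s (c11 f) := by
  rw [augF_eq, ← sum_single (co .p01u3 (c11 f)), ← sum_single_mulVec _ (co .p01s (c11 f))]
  simp only [V.sm_b3, gen_a, gen_b3, smul_zero, zero_add, Finset.sum_add_distrib]
  rfl

theorem aug_c1 : augF n f .c1 = co .q02m1 (c11 f) +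
    (y3 K n *ᵥ co .q02w2 (c11 f) - y2 K n *ᵥ co .q02w3 (c11 f)) := by
  rw [augF_eq, ← sum_single (co .q02m1 (c11 f)), ← sum_single_mulVec _ (co .q02w2 (c11 f)),
    ← sum_single_mulVec _ (co .q02w3 (c11 f))]
  simp only [V.sm_c1, gen_a, gen_b1, gen_b2, gen_b3, gen_c1, smul_zero, zero_add, mulVec_zero,
    sub_zero, add_zero, Finset.sum_add_distrib, Finset.sum_sub_distrib]
  rfl

theorem aug_c2 : augF n f .c2 = co .q02m2 (c11 f) +
    (y1 K n *ᵥ co .q02w3 (c11 f) - y3 K n *ᵥ co .q02w1 (c11 f)) := by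
  rw [augF_eq, ← sum_single (co .q02m2 (c11 f)), ← sum_single_mulVec _ (co .q02w3 (c11 f)),
    ← sum_single_mulVec _ (co .q02w1 (c11 f))]
  simp only [V.sm_c2, gen_a, gen_b1, gen_b2, gen_b3, gen_c2, smul_zero, zero_add, mulVec_zero,
    sub_zero, add_zero, Finset.sum_add_distrib, Finset.sum_sub_distrib]
  rfl

theorem aug_c3 : augF n f .c3 = co .q02m3 (c11 f) +
    (y2 K n *ᵥ co .q02w1 (c11 f) - y1 K n *ᵥ co .q02w2 (c11 f)) := by
  rw [augF_eq, ← sum_single (co .q02m3 (c11 f)), ← sum_single_mulVec _ (co .q02w1 (c11 f)),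
    ← sum_single_mulVec _ (co .q02w2 (c11 f))]
  simp only [V.sm_c3, gen_a, gen_b1, gen_b2, gen_b3, gen_c3, smul_zero, zero_add, mulVec_zero,
    sub_zero, add_zero, Finset.sum_add_distrib, Finset.sum_sub_distrib]
  rfl

theorem aug_t : augF n f .t = co .r03c (c11 f) +
    (y1 K n *ᵥ co .r03n1 (c11 f) + y2 K n *ᵥ co .r03n2 (c11 f)
      + y3 K n *ᵥ co .r03n3 (c11 f)) := by
  rw [augF_eq, ← sum_single (co .r03c (c11 f)), ← sum_single_mulVec _ (co .r03n1 (c11 f)),
    ← sum_single_mulVec _ (co .r03n2 (c11 f)), ← sum_single_mulVec _ (co .r03n3 (c11 f))]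
  simp only [V.sm_t, gen_a, gen_b1, gen_b2, gen_b3, gen_c1, gen_c2, gen_c3, gen_t, smul_zero,
    zero_add, mulVec_zero, sub_zero, add_zero, Finset.sum_add_distrib, Finset.sum_sub_distrib]
  rfl

/-- the preimage of an element of `V n` -/
def pre (v : V K n) (k : Fin (n + 1)) : A0 K
  | .d0 => v .a k
  | .p01u1 => v .b1 k
  | .p01u2 => v .b2 k
  | .p01u3 => v .b3 k
  | .q02m1 => v .c1 k
  | .q02m2 => v .c2 k
  | .q02m3 => v .c3 k
  | .r03c => v .t k
  | _ => 0

theorem act_eq_mulVec (Y : Matrix (Fin (n + 1)) (Fin (n + 1)) K) (s : Fin (n + 1) → K) :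
    act Y s = Y *ᵥ s := by
  funext k
  simp [act, Matrix.mulVec, dotProduct]

theorem co_add (i : Ix) (p q : Fin (n + 1) → A0 K) : co i (p + q) = co i p + co i q := rfl
theorem co_sub (i : Ix) (p q : Fin (n + 1) → A0 K) : co i (p - q) = co i p - co i q := rfl
theorem co_neg (i : Ix) (p : Fin (n + 1) → A0 K) : co i (-p) = - co i p := rfl
theorem co_smul (i : Ix) (c : K) (p : Fin (n + 1) → A0 K) : co i (c • p) = c • co i p := rfl
theorem co_act (i : Ix) (Y : Matrix (Fin (n + 1)) (Fin (n + 1)) K) (p : Fin (n + 1) → A0 K) :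
    co i (act Y p) = Y *ᵥ co i p := by
  rw [← act_eq_mulVec]
  funext k
  exact act_map (A0.coord i) Y p k

section

variable (p : Fin (n + 1) → A0 K) (y : A0 K)

theorem co_rm_d0 : co .d0 (rm p y) =
      y .d0 • co .d0 p := by
  funext k
  simp only [co, rm, Pi.add_apply, Pi.sub_apply, Pi.smul_apply, smul_eq_mul, A0.mul_d0]
  ring

theorem co_rm_p01u1 : co .p01u1 (rm p y) =
      y .p01u1 • co .d1 p + y .d0 • co .p01u1 p := by
  funext k
  simp only [co, rm, Pi.add_apply, Pi.sub_apply, Pi.smul_apply, smul_eq_mul, A0.mul_p01u1]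
  ring

theorem co_rm_p01u2 : co .p01u2 (rm p y) =
      y .p01u2 • co .d1 p + y .d0 • co .p01u2 p := by
  funext k
  simp only [co, rm, Pi.add_apply, Pi.sub_apply, Pi.smul_apply, smul_eq_mul, A0.mul_p01u2]
  ring

theorem co_rm_p01u3 : co .p01u3 (rm p y) =
      y .p01u3 • co .d1 p + y .d0 • co .p01u3 p := by
  funext k
  simp only [co, rm, Pi.add_apply, Pi.sub_apply, Pi.smul_apply, smul_eq_mul, A0.mul_p01u3]
  ring

theorem co_rm_p01s : co .p01s (rm p y) =
      y .p01s • co .d1 p + y .d0 • co .p01s p := by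
  funext k
  simp only [co, rm, Pi.add_apply, Pi.sub_apply, Pi.smul_apply, smul_eq_mul, A0.mul_p01s]
  ring

theorem co_rm_q02m1 : co .q02m1 (rm p y) =
      y .q02m1 • co .d2 p + y .d0 • co .q02m1 p
        + (y .p01u3 • co .p12u2 p - y .p01u2 • co .p12u3 p) + (2 * y .p01u2) • co .p12s p := by
  funext k
  simp only [co, rm, Pi.add_apply, Pi.sub_apply, Pi.smul_apply, smul_eq_mul, A0.mul_q02m1]
  ring

theorem co_rm_q02m2 : co .q02m2 (rm p y) =
      y .q02m2 • co .d2 p + y .d0 • co .q02m2 p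
        + (y .p01u1 • co .p12u3 p - y .p01u3 • co .p12u1 p) + (2 * y .p01u1) • co .p12s p := by
  funext k
  simp only [co, rm, Pi.add_apply, Pi.sub_apply, Pi.smul_apply, smul_eq_mul, A0.mul_q02m2]
  ring

theorem co_rm_q02m3 : co .q02m3 (rm p y) =
      y .q02m3 • co .d2 p + y .d0 • co .q02m3 p
        + (y .p01u2 • co .p12u1 p - y .p01u1 • co .p12u2 p) + y .p01u3 • co .p12s p := by
  funext k
  simp only [co, rm, Pi.add_apply, Pi.sub_apply, Pi.smul_apply, smul_eq_mul, A0.mul_q02m3]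
  ring

theorem co_rm_q02w1 : co .q02w1 (rm p y) =
      y .q02w1 • co .d2 p + y .d0 • co .q02w1 p
        + y .p01s • co .p12u1 p - y .p01u1 • co .p12s p := by
  funext k
  simp only [co, rm, Pi.add_apply, Pi.sub_apply, Pi.smul_apply, smul_eq_mul, A0.mul_q02w1]
  ring

theorem co_rm_q02w2 : co .q02w2 (rm p y) =
      y .q02w2 • co .d2 p + y .d0 • co .q02w2 p
        + y .p01s • co .p12u2 p - y .p01u2 • co .p12s p := by
  funext k
  simp only [co, rm, Pi.add_apply, Pi.sub_apply, Pi.smul_apply, smul_eq_mul, A0.mul_q02w2]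
  ring

theorem co_rm_q02w3 : co .q02w3 (rm p y) =
      y .q02w3 • co .d2 p + y .d0 • co .q02w3 p
        + y .p01s • co .p12u3 p - y .p01u3 • co .p12s p := by
  funext k
  simp only [co, rm, Pi.add_apply, Pi.sub_apply, Pi.smul_apply, smul_eq_mul, A0.mul_q02w3]
  ring

theorem co_rm_r03c : co .r03c (rm p y) =
      y .r03c • co .d3 p + y .d0 • co .r03c p + (y .q02m1 • co .p23u1 p
        + y .q02m2 • co .p23u2 p + y .q02m3 • co .p23u3 p) + (y .p01u1 • co .q13m1 p
        + y .p01u2 • co .q13m2 p + y .p01u3 • co .q13m3 p) + ((2 * y .p01u2) • co .q13w1 p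
        + (2 * y .p01u1) • co .q13w2 p + y .p01u3 • co .q13w3 p) := by
  funext k
  simp only [co, rm, Pi.add_apply, Pi.sub_apply, Pi.smul_apply, smul_eq_mul, A0.mul_r03c]
  ring

theorem co_rm_r03n1 : co .r03n1 (rm p y) =
      y .r03n1 • co .d3 p + y .d0 • co .r03n1 p
        + (y .q02w3 • co .p23u2 p - y .q02w2 • co .p23u3 p) + y .q02m1 • co .p23s p
        + (2 * y .q02w2) • co .p23s p
        + y .p01s • co .q13m1 p - (y .p01u3 • co .q13w2 p - y .p01u2 • co .q13w3 p) := by
  funext k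
  simp only [co, rm, Pi.add_apply, Pi.sub_apply, Pi.smul_apply, smul_eq_mul, A0.mul_r03n1]
  ring

theorem co_rm_r03n2 : co .r03n2 (rm p y) =
      y .r03n2 • co .d3 p + y .d0 • co .r03n2 p
        + (y .q02w1 • co .p23u3 p - y .q02w3 • co .p23u1 p) + y .q02m2 • co .p23s p
        + (2 * y .q02w1) • co .p23s p
        + y .p01s • co .q13m2 p - (y .p01u1 • co .q13w3 p - y .p01u3 • co .q13w1 p) := by
  funext k
  simp only [co, rm, Pi.add_apply, Pi.sub_apply, Pi.smul_apply, smul_eq_mul, A0.mul_r03n2]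
  ring

theorem co_rm_r03n3 : co .r03n3 (rm p y) =
      y .r03n3 • co .d3 p + y .d0 • co .r03n3 p
        + (y .q02w2 • co .p23u1 p - y .q02w1 • co .p23u2 p) + y .q02m3 • co .p23s p
        + y .q02w3 • co .p23s p
        + y .p01s • co .q13m3 p - (y .p01u2 • co .q13w1 p - y .p01u1 • co .q13w2 p) := by
  funext k
  simp only [co, rm, Pi.add_apply, Pi.sub_apply, Pi.smul_apply, smul_eq_mul, A0.mul_r03n3]
  ring

end

theorem co_XiB (i : Ix) (p : Fin (n + 1) → A0 K) : co i (XiB p) =
    co i (rm p A0.xi) - y1 K n *ᵥ co i (rm p A0.al1) - y2 K n *ᵥ co i (rm p A0.al2)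
      - y3 K n *ᵥ co i (rm p A0.al3) := by
  simp only [XiB, co_sub, co_act]

theorem co_ext {p q : Fin (n + 1) → A0 K} (h : ∀ i, co i p = co i q) : p = q := by
  funext k
  ext i
  exact congrFun (h i) k

theorem co_om {i : Ix} (hi : i ∈ ({.d1, .p12u1, .p12u2, .p12u3, .p12s, .q13m1, .q13m2, .q13m3,
    .q13w1, .q13w2, .q13w3} : Set Ix)) (p : Fin (n + 1) → A0 K) :
    co i (rm p A0.om) = - co i p := by
  funext k
  rcases hi with rfl | rfl | rfl | rfl | rfl | rfl | rfl | rfl | rfl | rfl | rfl <;>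
    simp [co, rm]

end R0aux

open R0aux

theorem aug_surjective (n : ℕ) : Function.Surjective (aug K n) := by
  intro v
  refine ⟨⟨fun k => AA.mk (pre v k) 0 0 0 0 0, ?_⟩, ?_⟩
  · intro k
    ext1 <;> simp [AA.Eid]
    ext i
    cases i <;> simp [pre]
  · change augF n (fun k => AA.mk (pre v k) 0 0 0 0 0) = v
    have hc : c11 (fun k => AA.mk (pre v k) 0 0 0 0 0) = pre v := rfl
    have h0 : ∀ i, i ∈ ({.p01s, .q02w1, .q02w2, .q02w3, .r03n1, .r03n2, .r03n3} : Set Ix) →
        co i (pre v) = 0 := by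
      intro i hi
      funext k
      rcases hi with rfl | rfl | rfl | rfl | rfl | rfl | rfl <;> rfl
    ext1 i
    cases i
    · rw [aug_a, hc]; rfl
    · rw [aug_b1, hc, h0 .p01s (by simp), mulVec_zero, add_zero]; rfl
    · rw [aug_b2, hc, h0 .p01s (by simp), mulVec_zero, add_zero]; rfl
    · rw [aug_b3, hc, h0 .p01s (by simp), mulVec_zero, add_zero]; rfl
    · rw [aug_c1, hc, h0 .q02w2 (by simp), h0 .q02w3 (by simp), mulVec_zero, mulVec_zero,
        sub_zero, add_zero]; rfl
    · rw [aug_c2, hc, h0 .q02w3 (by simp), h0 .q02w1 (by simp), mulVec_zero, mulVec_zero,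
        sub_zero, add_zero]; rfl
    · rw [aug_c3, hc, h0 .q02w1 (by simp), h0 .q02w2 (by simp), mulVec_zero, mulVec_zero,
        sub_zero, add_zero]; rfl
    · rw [aug_t, hc, h0 .r03n1 (by simp), h0 .r03n2 (by simp), h0 .r03n3 (by simp), mulVec_zero,
        mulVec_zero, mulVec_zero, add_zero, add_zero, add_zero]; rfl

/-- the coordinates of `c11 (DA n 1 f)` -/
theorem c11_DA_one (n : ℕ) (f : Fin (n + 1) → AA K) :
    c11 (DA n 1 f) = - XiB (rm (c11 f) A0.om) := by
  rw [c11_DA]
  simp [cc, sgn]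

theorem aug_exact (n : ℕ) : Function.Exact (dR K n 0) (aug K n) := by
  rintro ⟨f, hf⟩
  constructor
  · intro h
    have haug : augF n f = 0 := h
    have hf11 : ∀ k, (f k).a11 * A0.e0 = (f k).a11 := fun k => by
      have := congrArg AA.a11 (hf k)
      simpa [AA.Eid] using this
    have hf12 : ∀ k, (f k).a12 = 0 := fun k => by
      have := congrArg AA.a12 (hf k)
      simpa [AA.Eid] using this.symm
    have hf21 : ∀ k, (f k).a21 * A0.e0 = (f k).a21 := fun k => by
      have := congrArg AA.a21 (hf k)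
      simpa [AA.Eid] using this
    have hf22 : ∀ k, (f k).a22 = 0 := fun k => by
      have := congrArg AA.a22 (hf k)
      simpa [AA.Eid] using this.symm
    have hfro : ∀ k, (f k).ro = 0 := fun k => by
      have := congrArg AA.ro (hf k)
      simpa [AA.Eid] using this.symm
    have hfsi : ∀ k, (f k).si = 0 := fun k => by
      have := congrArg AA.si (hf k)
      simpa [AA.Eid] using this.symm
    let g : Fin (n + 1) → AA K := fun k => AA.mk (A0.kap (f k).a11) 0 0 (f k).a21 0 0
    have hg : g ∈ R K n 1 := by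
      intro k
      ext1 <;> simp [AA.Eid, g, A0.kap_mul_e1, hf11, hf21]
    refine ⟨⟨g, hg⟩, Subtype.ext (funext fun k => ?_)⟩
    change (DA n 1 g) k * AA.Eid 0 = f k
    have k11 : rm (c11 (DA n 1 g)) A0.e0 = c11 f := by
      rw [c11_DA_one]
      set x := c11 f with hx
      have hxe : rm x A0.e0 = x := funext hf11
      have z : ∀ i, i ∈ ({.d1, .d2, .d3, .p12u1, .p12u2, .p12u3, .p12s, .p23u1, .p23u2, .p23u3,
          .p23s, .q13m1, .q13m2, .q13m3, .q13w1, .q13w2, .q13w3} : Set Ix) →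
          ∀ q : Fin (n + 1) → A0 K, co i (rm q A0.e0) = 0 := by
        intro i hi q
        funext k
        rcases hi with rfl | rfl | rfl | rfl | rfl | rfl | rfl | rfl | rfl | rfl | rfl | rfl |
          rfl | rfl | rfl | rfl | rfl <;> simp [co, rm]
      have z' : ∀ i, i ∈ ({.d1, .d2, .d3, .p12u1, .p12u2, .p12u3, .p12s, .p23u1, .p23u2, .p23u3,
          .p23s, .q13m1, .q13m2, .q13m3, .q13w1, .q13w2, .q13w3} : Set Ix) →
          ∀ q : Fin (n + 1) → A0 K, co i (rm q A0.e0) = co i x := by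
        intro i hi q
        rw [← hxe, z i hi q, z i hi x]
      have p1 : co .d1 (rm (c11 g) A0.om) = - co .p01s x := co_om (by simp) _
      have p2 : co .p12u1 (rm (c11 g) A0.om) = - co .q02w1 x := co_om (by simp) _
      have p3 : co .p12u2 (rm (c11 g) A0.om) = - co .q02w2 x := co_om (by simp) _
      have p4 : co .p12u3 (rm (c11 g) A0.om) = - co .q02w3 x := co_om (by simp) _
      have p5 : co .p12s (rm (c11 g) A0.om) = 0 := by
        rw [co_om (by simp)]
        funext k
        simp [co, c11, g]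
      have p6 : co .q13m1 (rm (c11 g) A0.om) = - co .r03n1 x := co_om (by simp) _
      have p7 : co .q13m2 (rm (c11 g) A0.om) = - co .r03n2 x := co_om (by simp) _
      have p8 : co .q13m3 (rm (c11 g) A0.om) = - co .r03n3 x := co_om (by simp) _
      have p9 : co .q13w1 (rm (c11 g) A0.om) = 0 := by
        rw [co_om (by simp)]
        funext k
        simp [co, c11, g]
      have p10 : co .q13w2 (rm (c11 g) A0.om) = 0 := by
        rw [co_om (by simp)]
        funext k
        simp [co, c11, g]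
      have p11 : co .q13w3 (rm (c11 g) A0.om) = 0 := by
        rw [co_om (by simp)]
        funext k
        simp [co, c11, g]
      have aa : co .d0 x = 0 := by rw [hx, ← aug_a, haug]; rfl
      have ab1 : co .p01u1 x + y1 K n *ᵥ co .p01s x = 0 := by rw [hx, ← aug_b1, haug]; rfl
      have ab2 : co .p01u2 x + y2 K n *ᵥ co .p01s x = 0 := by rw [hx, ← aug_b2, haug]; rfl
      have ab3 : co .p01u3 x + y3 K n *ᵥ co .p01s x = 0 := by rw [hx, ← aug_b3, haug]; rfl
      have ac1 : co .q02m1 x + (y3 K n *ᵥ co .q02w2 x - y2 K n *ᵥ co .q02w3 x) = 0 := by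
        rw [hx, ← aug_c1, haug]; rfl
      have ac2 : co .q02m2 x + (y1 K n *ᵥ co .q02w3 x - y3 K n *ᵥ co .q02w1 x) = 0 := by
        rw [hx, ← aug_c2, haug]; rfl
      have ac3 : co .q02m3 x + (y2 K n *ᵥ co .q02w1 x - y1 K n *ᵥ co .q02w2 x) = 0 := by
        rw [hx, ← aug_c3, haug]; rfl
      have at' : co .r03c x + (y1 K n *ᵥ co .r03n1 x + y2 K n *ᵥ co .r03n2 x
          + y3 K n *ᵥ co .r03n3 x) = 0 := by
        rw [hx, ← aug_t, haug]; rfl
      apply co_ext
      intro i
      cases i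
      · simp [co_rm_d0, co_neg, co_XiB, aa]
      · exact z' _ (by simp) _
      · exact z' _ (by simp) _
      · exact z' _ (by simp) _
      · rw [← sub_eq_zero]
        simp [co_rm_p01u1, co_rm_p01s, co_neg, co_XiB, mulVec_neg, p1]
        rw [← neg_eq_zero, ← ab1]
        module
      · rw [← sub_eq_zero]
        simp [co_rm_p01u2, co_rm_p01s, co_neg, co_XiB, mulVec_neg, p1]
        rw [← neg_eq_zero, ← ab2]
        module
      · rw [← sub_eq_zero]
        simp [co_rm_p01u3, co_rm_p01s, co_neg, co_XiB, mulVec_neg, p1]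
        rw [← neg_eq_zero, ← ab3]
        module
      · simp [co_rm_p01s, co_neg, co_XiB, mulVec_neg, p1]
      · exact z' _ (by simp) _
      · exact z' _ (by simp) _
      · exact z' _ (by simp) _
      · exact z' _ (by simp) _
      · exact z' _ (by simp) _
      · exact z' _ (by simp) _
      · exact z' _ (by simp) _
      · exact z' _ (by simp) _
      · rw [← sub_eq_zero]
        simp [co_rm_q02m1, co_neg, co_XiB, mulVec_neg, p2, p3, p4, p5]
        rw [← neg_eq_zero, ← ac1]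
        module
      · rw [← sub_eq_zero]
        simp [co_rm_q02m2, co_neg, co_XiB, mulVec_neg, p2, p3, p4, p5]
        rw [← neg_eq_zero, ← ac2]
        module
      · rw [← sub_eq_zero]
        simp [co_rm_q02m3, co_neg, co_XiB, mulVec_neg, p2, p3, p4, p5]
        rw [← neg_eq_zero, ← ac3]
        module
      · simp [co_rm_q02w1, co_neg, co_XiB, mulVec_neg, p2, p3, p4, p5]
      · simp [co_rm_q02w2, co_neg, co_XiB, mulVec_neg, p2, p3, p4, p5]
      · simp [co_rm_q02w3, co_neg, co_XiB, mulVec_neg, p2, p3, p4, p5]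
      · exact z' _ (by simp) _
      · exact z' _ (by simp) _
      · exact z' _ (by simp) _
      · exact z' _ (by simp) _
      · exact z' _ (by simp) _
      · exact z' _ (by simp) _
      · rw [← sub_eq_zero]
        simp [co_rm_r03c, co_neg, co_XiB, mulVec_neg, p6, p7, p8, p9, p10, p11]
        rw [← neg_eq_zero, ← at']
        module
      · simp [co_rm_r03n1, co_neg, co_XiB, mulVec_neg, p6, p7, p8, p9, p10, p11]
      · simp [co_rm_r03n2, co_neg, co_XiB, mulVec_neg, p6, p7, p8, p9, p10, p11]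
      · simp [co_rm_r03n3, co_neg, co_XiB, mulVec_neg, p6, p7, p8, p9, p10, p11]
    have k21 : c21 (DA n 1 g) = c21 f := by
      have h1 : c21 g = 0 := rfl
      have h2 : c22 g = c21 f := rfl
      have rz : ∀ x : A0 K, rm (0 : Fin (n + 1) → A0 K) x = 0 := fun x => by
        funext k
        simp [rm]
      rw [c21_DA, h1, h2, rz]
      simp [cc, sgn, XiB, rz, act_zero]
    ext1
    · have h1 : (DA n 1 g k).a11 * A0.e0 = (f k).a11 := congrFun k11 k
      simp [AA.Eid, h1]
    · simp [AA.Eid, hf12]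
    · have := congrFun k21 k
      simp only [c21] at this
      simp [AA.Eid, this, hf21]
    · simp [AA.Eid, hf22]
    · simp [AA.Eid, hfro]
    · simp [AA.Eid, hfsi]
  · rintro ⟨⟨g, hg⟩, hgf⟩
    have hgf' : ∀ k, (DA n 1 g) k * AA.Eid 0 = f k := fun k => congrFun (congrArg Subtype.val hgf) k
    have h11 : c11 f = rm (- XiB (rm (c11 g) A0.om)) A0.e0 := by
      funext k
      have h1 := congrArg AA.a11 (hgf' k)
      rw [← c11_DA_one]
      change (f k).a11 = (DA n 1 g k).a11 * A0.e0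
      rw [← h1]
      simp [AA.Eid]
    change augF n f = 0
    set Q := rm (c11 g) A0.om with hQ
    ext1 i
    cases i
    · rw [aug_a, h11]
      simp [co_rm_d0, co_neg, co_XiB]
    · rw [aug_b1, h11]
      simp [co_rm_p01u1, co_rm_p01s, co_neg, co_XiB, mulVec_neg]
    · rw [aug_b2, h11]
      simp [co_rm_p01u2, co_rm_p01s, co_neg, co_XiB, mulVec_neg]
    · rw [aug_b3, h11]
      simp [co_rm_p01u3, co_rm_p01s, co_neg, co_XiB, mulVec_neg]
    · rw [aug_c1, h11]
      simp [co_rm_q02m1, co_rm_q02w2, co_rm_q02w3, co_neg, co_XiB, mulVec_neg, mulVec_add,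
        mulVec_sub, mulVec_smul, y_vec12, y_vec23, y_vec13, -mulVec_mulVec, smul_mulVec]
      module
    · rw [aug_c2, h11]
      simp [co_rm_q02m2, co_rm_q02w1, co_rm_q02w3, co_neg, co_XiB, mulVec_neg, mulVec_add,
        mulVec_sub, mulVec_smul, y_vec12, y_vec23, y_vec13, -mulVec_mulVec, smul_mulVec]
      module
    · rw [aug_c3, h11]
      simp [co_rm_q02m3, co_rm_q02w1, co_rm_q02w2, co_neg, co_XiB, mulVec_neg, mulVec_add,
        mulVec_sub, mulVec_smul, y_vec12, y_vec23, y_vec13, -mulVec_mulVec, smul_mulVec]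
      module
    · rw [aug_t, h11]
      simp [co_rm_r03c, co_rm_r03n1, co_rm_r03n2, co_rm_r03n3, co_neg, co_XiB, mulVec_neg,
        mulVec_add, mulVec_sub, mulVec_smul, y_vec12, y_vec23, y_vec13, -mulVec_mulVec, smul_mulVec]
      module

end Pool.Agent.H38.B2
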