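import Pool.Agent.H26.Wrap
import Pool.Agent.H38.B2.VMod

/-!
MODULE V of MP_b2fb47_al: the modules `V n` are finite, indecomposable and pairwise
non-isomorphic.
-/

set_option linter.unusedSectionVars false
set_option linter.unusedSimpArgs false

namespace Pool.Agent.H38.B2

open Matrix

universe u
variable {K : Type u} [Field K]

theorem V_finite (n : ℕ) : Module.Finite (AA K) (V K n) :=
  Module.Finite.of_restrictScalars_finite K (AA K) (V K n)

/-- coordinate elements of `A0` -/
def A0.un (i : Ix) : A0 K := fun j => if j = i then 1 else 0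

theorem A0.un_apply (i j : Ix) : (A0.un i : A0 K) j = if j = i then 1 else 0 := rfl

namespace V

variable {n : ℕ}

/-- inclusion of a component -/
def inc (i : Vx) (w : Fin (n + 1) → K) : V K n := fun j => if j = i then w else 0

theorem inc_apply (i j : Vx) (w : Fin (n + 1) → K) :
    (inc i w : V K n) j = if j = i then w else 0 := rfl

/-- the coordinate mapping the component `a` to the component `i` -/
def gx : Vx → Ix
  | .a => .d0
  | .b1 => .p01u1
  | .b2 => .p01u2
  | .b3 => .p01u3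
  | .c1 => .q02m1
  | .c2 => .q02m2
  | .c3 => .q02m3
  | .t => .r03c

theorem un_gx_smul (i : Vx) (v : V K n) : (A0.un (gx i) : A0 K) • v = inc i (v .a) := by
  cases i <;>
  · ext1 j
    cases j <;> simp [A0.un_apply, inc_apply, gx]

theorem un_xi_smul (v : V K n) : (A0.un .p01s : A0 K) • v =
    inc .b1 (y1 K n *ᵥ v .a) + inc .b2 (y2 K n *ᵥ v .a) + inc .b3 (y3 K n *ᵥ v .a) := by
  ext1 j
  cases j <;> simp [A0.un_apply, inc_apply]

theorem AA_mk_smul (x : A0 K) (v : V K n) : (AA.mk x 0 0 0 0 0 : AA K) • v = x • v := rfl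

theorem sum_inc (v : V K n) : v = ∑ i, inc i (v i) := by
  ext1 j
  have h : (∑ i, inc i (v i)) j = ∑ i, (inc i (v i) : V K n) j := Finset.sum_apply _ _ _
  rw [h]
  simp only [inc_apply]
  exact ((Finset.sum_ite_eq Finset.univ j v).trans (if_pos (Finset.mem_univ j))).symm

theorem inc_eq (i : Vx) (w : Fin (n + 1) → K) :
    (inc i w : V K n) = (A0.un (gx i) : A0 K) • (inc .a w : V K n) := by
  rw [un_gx_smul]
  simp [inc_apply]

theorem inc_add (i : Vx) (w w' : Fin (n + 1) → K) :
    (inc i (w + w') : V K n) = inc i w + inc i w' := by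
  ext1 j
  by_cases h : j = i <;> simp [inc_apply, h]

theorem inc_smul (i : Vx) (c : K) (w : Fin (n + 1) → K) :
    (inc i (c • w) : V K n) = c • inc i w := by
  ext1 j
  by_cases h : j = i <;> simp [inc_apply, h]

/-- every endomorphism of `V n` is a scalar -/
theorem end_scalar (lie_e : ∀ (f : HomM K n n), Y1 f = 0 → Y2 f = 0 → Y3 f = 0 →
      ∃ c : K, f = c • (1 : HomM K n n)) (f : V K n →ₗ[AA K] V K n) :
    ∃ c : K, ∀ v, f v = c • v := by
  have hA : ∀ (x : A0 K) (v : V K n), f (x • v) = x • f v := fun x v => by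
    rw [← AA_mk_smul, map_smul, AA_mk_smul]
  have hK : ∀ (c : K) (v : V K n), f (c • v) = c • f v := fun c v => f.map_smul_of_tower c v
  let F0 : (Fin (n + 1) → K) →ₗ[K] (Fin (n + 1) → K) :=
    { toFun := fun w => f (inc .a w) .a
      map_add' := fun w w' => by rw [inc_add, map_add]; rfl
      map_smul' := fun c w => by rw [inc_smul, hK]; rfl }
  have hF0 : ∀ w, F0 w = f (inc .a w) .a := fun _ => rfl
  have hinc : ∀ i w, f (inc i w) = inc i (F0 w) := by
    intro i w
    rw [inc_eq, hA, un_gx_smul, hF0]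
  set M : HomM K n n := LinearMap.toMatrix' F0 with hM
  have hMF : ∀ w, F0 w = M *ᵥ w := fun w => by
    rw [hM, LinearMap.toMatrix'_mulVec]
  have hxi : ∀ w : Fin (n + 1) → K, F0 (y1 K n *ᵥ w) = y1 K n *ᵥ F0 w ∧
      F0 (y2 K n *ᵥ w) = y2 K n *ᵥ F0 w ∧ F0 (y3 K n *ᵥ w) = y3 K n *ᵥ F0 w := by
    intro w
    have h1 := hA (A0.un .p01s) (inc .a w)
    rw [un_xi_smul, un_xi_smul, map_add, map_add, hinc, hinc, hinc, hinc] at h1
    have e1 := congrFun h1 .b1
    have e2 := congrFun h1 .b2
    have e3 := congrFun h1 .b3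
    simp [inc_apply] at e1 e2 e3
    exact ⟨e1, e2, e3⟩
  have key : ∀ Y : HomM K n n, (∀ w, F0 (Y *ᵥ w) = Y *ᵥ F0 w) → Y * M - M * Y = 0 := by
    intro Y hY
    rw [sub_eq_zero]
    apply Matrix.toLin'.injective
    ext w
    simp only [Matrix.toLin'_mul, LinearMap.comp_apply, Matrix.toLin'_apply]
    rw [← hMF, ← hMF, hY]
  obtain ⟨c, hc⟩ := lie_e M (key _ fun w => (hxi w).1) (key _ fun w => (hxi w).2.1)
    (key _ fun w => (hxi w).2.2)
  refine ⟨c, fun v => ?_⟩
  have hF0c : ∀ w, F0 w = c • w := fun w => by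
    rw [hMF, hc, Matrix.smul_mulVec, Matrix.one_mulVec]
  conv_lhs => rw [sum_inc v]
  rw [map_sum]
  simp only [hinc, hF0c, inc_smul]
  rw [← Finset.smul_sum, ← sum_inc]

theorem finrank (n : ℕ) : Module.finrank K (V K n) = 8 * (n + 1) := by
  have h : Module.finrank K (Vx → Fin (n + 1) → K) = 8 * (n + 1) := by
    rw [Module.finrank_pi_fintype]
    simp
    rfl
  exact h

instance : Nontrivial (V K n) := by
  refine ⟨⟨inc .a 1, 0, ?_⟩⟩
  intro h
  have h1 := congrFun (congrFun h .a) 0
  simp [inc_apply] at h1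

end V

open CategoryTheory in
/-- uses lie_e (assume it as hypothesis for now) -/
theorem V_indecomposable [CharZero K] (n : ℕ)
    (lie_e : ∀ (f : HomM K n n), Y1 f = 0 → Y2 f = 0 → Y3 f = 0 →
      ∃ c : K, f = c • (1 : HomM K n n)) :
    Indecomposable (ModuleCat.of (AA K) (V K n)) := by
  refine Pool.Agent.H26.indecomposable_of_indec (N := ModuleCat.of (AA K) (V K n)) ?_
  refine ⟨inferInstanceAs (Nontrivial (V K n)), ?_⟩
  intro P Q hPQ
  change Submodule (AA K) (V K n) at P Q
  let f : V K n →ₗ[AA K] V K n := P.subtype ∘ₗ P.projectionOnto Q hPQ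
  obtain ⟨c, hc⟩ := V.end_scalar lie_e f
  have hP : ∀ v ∈ P, f v = v := fun v hv => by
    change ((P.projectionOnto Q hPQ v : P) : V K n) = v
    exact congrArg Subtype.val (Submodule.projectionOnto_apply_left hPQ ⟨v, hv⟩)
  have hQ : ∀ v ∈ Q, f v = 0 := fun v hv => by
    change ((P.projectionOnto Q hPQ v : P) : V K n) = 0
    exact congrArg Subtype.val (Submodule.projectionOnto_apply_right hPQ ⟨v, hv⟩)
  by_cases h0 : c = 0
  · left
    rw [Submodule.eq_bot_iff]
    intro v hv
    rw [← hP v hv, hc, h0, zero_smul]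
  · right
    rw [Submodule.eq_bot_iff]
    intro v hv
    have h1 := hQ v hv
    rw [hc] at h1
    exact (smul_eq_zero.1 h1).resolve_left h0

open CategoryTheory in
theorem V_iso (n m : ℕ)
    (h : Nonempty (ModuleCat.of (AA K) (V K n) ≅ ModuleCat.of (AA K) (V K m))) : n = m := by
  obtain ⟨i⟩ := h
  let e : V K n ≃ₗ[AA K] V K m := i.toLinearEquiv
  have h1 := (e.restrictScalars K).finrank_eq
  rw [V.finrank, V.finrank] at h1
  omega

end Pool.Agent.H38.B2
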