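import Mathlib

/-!
Auxiliary construction for `MP_fc2771_gt`: bounded monotone functions, continuous off a dense set
`H`, whose graph sheared by `a * t` avoids countably many compact null sets.
-/

set_option autoImplicit false

open Set Filter Topology MeasureTheory
open scoped BoundedContinuousFunction Pointwise

namespace Pool.Agent.H77.PlasticAux

/-- monotone, and continuous at every point outside `H` -/
structure Good (H : Set ℝ) (φ : ℝ → ℝ) : Prop where
  mono : Monotone φ
  cont : ∀ t, t ∉ H → ContinuousAt φ t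

theorem good_Ioi {H : Set ℝ} {q : ℝ} (hq : q ∈ H) :
    Good H ((Ioi q).indicator (fun _ => (1 : ℝ))) := by
  constructor
  · intro x y hxy
    by_cases hx : x ∈ Ioi q
    · have hy : y ∈ Ioi q := lt_of_lt_of_le hx hxy
      rw [indicator_of_mem hx, indicator_of_mem hy]
    · rw [indicator_of_notMem hx]
      exact indicator_nonneg (fun _ _ => zero_le_one) y
  · intro t ht
    have hne : t ≠ q := fun h => ht (h ▸ hq)
    rcases lt_or_gt_of_ne hne with h | h
    · have : (Ioi q).indicator (fun _ => (1 : ℝ)) =ᶠ[𝓝 t] fun _ => 0 := by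
        filter_upwards [Iio_mem_nhds h] with x hx
        exact indicator_of_notMem (by simpa using (le_of_lt hx)) _
      exact this.continuousAt.congr (by rfl) |>.congr (by rfl)
    · have : (Ioi q).indicator (fun _ => (1 : ℝ)) =ᶠ[𝓝 t] fun _ => 1 := by
        filter_upwards [Ioi_mem_nhds h] with x hx
        exact indicator_of_mem hx _
      exact this.continuousAt

theorem good_Ici {H : Set ℝ} {q : ℝ} (hq : q ∈ H) :
    Good H ((Ici q).indicator (fun _ => (1 : ℝ))) := by
  constructor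
  · intro x y hxy
    by_cases hx : x ∈ Ici q
    · have hy : y ∈ Ici q := le_trans hx hxy
      rw [indicator_of_mem hx, indicator_of_mem hy]
    · rw [indicator_of_notMem hx]
      exact indicator_nonneg (fun _ _ => zero_le_one) y
  · intro t ht
    have hne : t ≠ q := fun h => ht (h ▸ hq)
    rcases lt_or_gt_of_ne hne with h | h
    · have : (Ici q).indicator (fun _ => (1 : ℝ)) =ᶠ[𝓝 t] fun _ => 0 := by
        filter_upwards [Iio_mem_nhds h] with x hx
        exact indicator_of_notMem (by simpa using hx) _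
      exact this.continuousAt
    · have : (Ici q).indicator (fun _ => (1 : ℝ)) =ᶠ[𝓝 t] fun _ => 1 := by
        filter_upwards [Ioi_mem_nhds h] with x hx
        exact indicator_of_mem (le_of_lt hx) _
      exact this.continuousAt

theorem ind01 (s : Set ℝ) (t : ℝ) :
    s.indicator (fun _ => (1 : ℝ)) t = 0 ∨ s.indicator (fun _ => (1 : ℝ)) t = 1 := by
  by_cases h : t ∈ s
  · right; exact indicator_of_mem h _
  · left; exact indicator_of_notMem h _

theorem ind_zero {s : Set ℝ} {t : ℝ} (h : s.indicator (fun _ => (1 : ℝ)) t = 0) : t ∉ s := by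
  intro ht
  rw [indicator_of_mem ht] at h
  exact one_ne_zero h

theorem ind_one {s : Set ℝ} {t : ℝ} (h : s.indicator (fun _ => (1 : ℝ)) t = 1) : t ∈ s := by
  by_contra ht
  rw [indicator_of_notMem ht] at h
  exact zero_ne_one h

theorem one_cell {H : Set ℝ} (hH : Dense H) {φ : ℝ → ℝ} (hφ : Good H φ) {B : ℝ}
    (hB : ∀ t, |φ t| ≤ B) {a : ℝ} (ha : 0 < a) (c θ : ℝ) (hθ : 0 < θ) :
    ∃ J : ℝ → ℝ, Good H J ∧ (∀ t, J t = 0 ∨ J t = 1) ∧ (∀ t, J t = 0 → a * t + φ t ≤ c - θ) ∧
      (∀ t, J t = 1 → c - 2 * θ ≤ a * t + φ t) := by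
  have hEmono : ∀ x y, x ≤ y → a * x + φ x ≤ a * y + φ y := by
    intro x y hxy
    have := hφ.mono hxy
    have := mul_le_mul_of_nonneg_left hxy ha.le
    linarith
  set T : Set ℝ := {t | a * t + φ t < c - θ} with hT
  have hTne : T.Nonempty := by
    refine ⟨(c - θ - B - 1) / a, ?_⟩
    have h1 : a * ((c - θ - B - 1) / a) = c - θ - B - 1 := by field_simp
    have h2 := (abs_le.1 (hB ((c - θ - B - 1) / a))).2
    simp only [hT, mem_ofPred_eq]
    linarith
  have hTb : BddAbove T := by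
    refine ⟨(c - θ + B) / a, fun t ht => ?_⟩
    simp only [hT, mem_ofPred_eq] at ht
    have h2 := (abs_le.1 (hB t)).1
    rw [le_div_iff₀ ha]
    nlinarith
  set s := sSup T with hs
  have hlt : ∀ t, t < s → a * t + φ t < c - θ := by
    intro t ht
    obtain ⟨t', ht', htt'⟩ := exists_lt_of_lt_csSup hTne ht
    exact lt_of_le_of_lt (hEmono t t' htt'.le) ht'
  have hgt : ∀ t, s < t → c - θ ≤ a * t + φ t := by
    intro t ht
    by_contra hcon
    exact absurd (le_csSup hTb (show t ∈ T from not_le.1 hcon)) (not_le.2 ht)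
  by_cases hsH : s ∈ H
  · by_cases hEs : a * s + φ s < c - θ
    · refine ⟨_, good_Ioi hsH, ind01 _, fun t ht => ?_, fun t ht => ?_⟩
      · have h1 : t ≤ s := by simpa using ind_zero ht
        exact (hEmono t s h1).trans hEs.le
      · have h1 : s < t := ind_one ht
        have := hgt t h1
        linarith
    · refine ⟨_, good_Ici hsH, ind01 _, fun t ht => ?_, fun t ht => ?_⟩
      · have h1 : t < s := by simpa using ind_zero ht
        exact (hlt t h1).le
      · have h1 : s ≤ t := ind_one ht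
        have := hEmono s t h1
        linarith [not_lt.1 hEs]
  · have hc : ContinuousAt (fun t => a * t + φ t) s :=
      (continuousAt_const.mul continuousAt_id).add (hφ.cont s hsH)
    have hEs : c - θ ≤ a * s + φ s := by
      have h1 : Tendsto (fun t => a * t + φ t) (𝓝[>] s) (𝓝 (a * s + φ s)) :=
        hc.tendsto.mono_left nhdsWithin_le_nhds
      refine ge_of_tendsto h1 ?_
      filter_upwards [self_mem_nhdsWithin] with t ht
      exact hgt t ht
    have h2 : ∀ᶠ t in 𝓝 s, c - 2 * θ < a * t + φ t := by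
      refine hc.eventually_const_lt ?_
      show c - 2 * θ < a * s + φ s
      linarith
    obtain ⟨l, hl, hl'⟩ := exists_Ioc_subset_of_mem_nhds h2 (exists_lt s)
    obtain ⟨q, hqH, hq⟩ := hH.exists_mem_open isOpen_Ioo (nonempty_Ioo.2 hl)
    have hEq : c - 2 * θ < a * q + φ q := hl' ⟨hq.1, hq.2.le⟩
    refine ⟨_, good_Ioi hqH, ind01 _, fun t ht => ?_, fun t ht => ?_⟩
    · have h1 : t ≤ q := by simpa using ind_zero ht
      exact (hlt t (h1.trans_lt hq.2)).le
    · have h1 : q < t := ind_one ht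
      exact hEq.le.trans (hEmono q t h1.le)

theorem cells {H : Set ℝ} (hH : Dense H) {φ : ℝ → ℝ} (hφ : Good H φ) {B : ℝ}
    (hB : ∀ t, |φ t| ≤ B) {a : ℝ} (ha : 0 < a) {N : ℝ} (hN : 0 < N) (S : Finset ℤ) :
    ∃ φ' : ℝ → ℝ, Good H φ' ∧ (∀ t, φ t ≤ φ' t ∧ φ' t ≤ φ t + 2 * S.card / N) ∧
      ∃ δ > 0, ∀ t, ∀ i ∈ S, a * t + φ' t ≤ i / N - δ ∨ ((i : ℝ) + 1) / N + δ ≤ a * t + φ' t := by
  induction S using Finset.induction_on_max with
  | empty => exact ⟨φ, hφ, fun t => ⟨le_rfl, by simp⟩, 1, one_pos, by simp⟩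
  | insert i S hi ih =>
    obtain ⟨φ', hφ', hle, δ, hδ, hav⟩ := ih
    have hB' : ∀ t, |φ' t| ≤ B + 2 * S.card / N := by
      intro t
      have h1 := abs_le.1 (hB t)
      have h2 := hle t
      have h3 : 0 ≤ 2 * (S.card : ℝ) / N := by positivity
      rw [abs_le]
      constructor <;> linarith [h1.1, h1.2, h2.1, h2.2]
    have hθ : 0 < 1 / (3 * N) := by positivity
    obtain ⟨J, hJ, hJ01, hJ0, hJ1⟩ := one_cell hH hφ' hB' ha (i / N) (1 / (3 * N)) hθ
    have hiS : i ∉ S := fun h => (hi i h).false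
    refine ⟨fun t => φ' t + 2 / N * J t, ⟨?_, ?_⟩, ?_, min δ (1 / (3 * N)), lt_min hδ hθ, ?_⟩
    · intro x y hxy
      have h1 := hφ'.mono hxy
      have h2 := mul_le_mul_of_nonneg_left (hJ.mono hxy) (show 0 ≤ 2 / N by positivity)
      show φ' x + 2 / N * J x ≤ φ' y + 2 / N * J y
      linarith
    · intro t ht
      exact (hφ'.cont t ht).add (continuousAt_const.mul (hJ.cont t ht))
    · intro t
      have h2 := hle t
      have h3 : 0 ≤ 2 / N := by positivity
      rw [Finset.card_insert_of_notMem hiS]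
      push_cast
      have h4 : 2 * ((S.card : ℝ) + 1) / N = 2 * S.card / N + 2 / N := by ring
      rw [h4]
      rcases hJ01 t with h | h <;> simp only [h] <;> constructor <;> linarith [h2.1, h2.2]
    · intro t j hj
      have hm1 := min_le_left δ (1 / (3 * N))
      have hm2 := min_le_right δ (1 / (3 * N))
      have h6 : 2 / N = 1 / N + 3 * (1 / (3 * N)) := by field_simp; norm_num
      have h7 : ((i : ℝ) + 1) / N = i / N + 1 / N := by ring
      rcases Finset.mem_insert.1 hj with rfl | hj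
      · rcases hJ01 t with h | h
        · left
          have := hJ0 t h
          simp only [h]
          linarith
        · right
          have := hJ1 t h
          simp only [h]
          linarith
      · rcases hJ01 t with h | h
        · simp only [h]
          rcases hav t j hj with h' | h'
          · left; linarith
          · right; linarith
        · right
          have := hJ1 t h
          simp only [h]
          have hji : ((j : ℝ) + 1) / N ≤ (i + 1) / N := by
            have : (j : ℝ) ≤ i := by exact_mod_cast (hi j hj).le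
            gcongr
          linarith

theorem avoid {H : Set ℝ} (hH : Dense H) {φ : ℝ → ℝ} (hφ : Good H φ) {B : ℝ}
    (hB : ∀ t, |φ t| ≤ B) {a : ℝ} (ha : 0 < a) {K : Set ℝ} (hK : IsCompact K)
    (hK0 : volume K = 0) {ε : ℝ} (hε : 0 < ε) :
    ∃ φ' : ℝ → ℝ, Good H φ' ∧ (∀ t, |φ' t - φ t| ≤ ε) ∧
      ∃ δ > 0, ∀ t, ∀ k ∈ K, δ ≤ |a * t + φ' t - k| := by
  have h1 : Tendsto (fun r => volume (Metric.cthickening r K)) (𝓝 0) (𝓝 0) := by
    have := tendsto_measure_cthickening_of_isCompact (μ := volume) hK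
    rwa [hK0] at this
  have h2 : Tendsto (fun n : ℕ => 1 / ((n : ℝ) + 1)) atTop (𝓝 0) :=
    tendsto_one_div_add_atTop_nhds_zero_nat
  have h3 := (h1.comp h2).eventually (gt_mem_nhds (show (0 : ENNReal) < ENNReal.ofReal (ε / 2) by
    simpa using hε))
  obtain ⟨n, hn⟩ := h3.exists
  set N : ℝ := (n : ℝ) + 1 with hNdef
  have hN : 0 < N := by positivity
  simp only [Function.comp_apply] at hn
  -- the finite set of cells
  have hfin : ((fun k : ℝ => ⌊N * k⌋) '' K).Finite := by
    obtain ⟨R, hR⟩ := hK.isBounded.exists_norm_le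
    refine (Set.finite_Icc (⌊-(N * R)⌋) (⌊N * R⌋)).subset ?_
    rintro _ ⟨k, hk, rfl⟩
    have := abs_le.1 (hR k hk)
    constructor
    · apply Int.floor_le_floor
      nlinarith [this.1]
    · apply Int.floor_le_floor
      nlinarith [this.2]
  set S := hfin.toFinset with hS
  have hcard : 2 * (S.card : ℝ) / N ≤ ε := by
    have hsub : (⋃ i ∈ S, Ico ((i : ℝ) / N) (((i : ℝ) + 1) / N)) ⊆ Metric.cthickening (1 / N) K := by
      intro x hx
      simp only [mem_iUnion, exists_prop] at hx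
      obtain ⟨i, hi, hx⟩ := hx
      rw [hS, Set.Finite.mem_toFinset] at hi
      obtain ⟨k, hk, rfl⟩ := hi
      refine Metric.mem_cthickening_of_dist_le x k _ K hk ?_
      have h4 := Int.floor_le (N * k)
      have h5 := Int.lt_floor_add_one (N * k)
      obtain ⟨hx1, hx2⟩ := hx
      rw [div_le_iff₀ hN] at hx1
      rw [lt_div_iff₀ hN] at hx2
      rw [Real.dist_eq, abs_le]
      have e1 : 1 / N * N = 1 := by field_simp
      constructor
      · by_contra hcon
        push Not at hcon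
        have := mul_lt_mul_of_pos_right hcon hN
        nlinarith
      · by_contra hcon
        push Not at hcon
        have := mul_lt_mul_of_pos_right hcon hN
        nlinarith
    have hmeas : volume (⋃ i ∈ S, Ico ((i : ℝ) / N) (((i : ℝ) + 1) / N)) =
        ENNReal.ofReal (S.card / N) := by
      rw [measure_biUnion_finset]
      · have : ∀ i : ℤ, volume (Ico ((i : ℝ) / N) (((i : ℝ) + 1) / N)) = ENNReal.ofReal (1 / N) := by
          intro i
          rw [Real.volume_Ico]
          congr 1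
          ring
        simp only [this, Finset.sum_const, nsmul_eq_mul]
        rw [← ENNReal.ofReal_natCast, ← ENNReal.ofReal_mul (by positivity)]
        congr 1
        ring
      · intro i _ j _ hij
        rw [Function.onFun, Set.disjoint_left]
        intro x hx1 hx2
        apply hij
        have a1 : ∀ i : ℤ, x ∈ Ico ((i : ℝ) / N) (((i : ℝ) + 1) / N) → ⌊x * N⌋ = i := by
          intro i hx
          obtain ⟨hx1, hx2⟩ := hx
          rw [div_le_iff₀ hN] at hx1
          rw [lt_div_iff₀ hN] at hx2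
          exact Int.floor_eq_iff.2 ⟨hx1, hx2⟩
        rw [← a1 i hx1, a1 j hx2]
      · intro i _
        exact measurableSet_Ico
    have hlt : ENNReal.ofReal (S.card / N) < ENNReal.ofReal (ε / 2) := by
      rw [← hmeas]
      exact (measure_mono hsub).trans_lt hn
    have := (ENNReal.ofReal_lt_ofReal_iff (by positivity)).1 hlt
    have h8 : 2 * (S.card : ℝ) / N = 2 * (S.card / N) := by ring
    rw [h8]
    linarith
  obtain ⟨φ', hφ', hle, δ, hδ, hav⟩ := cells hH hφ hB ha hN S
  refine ⟨φ', hφ', fun t => ?_, δ, hδ, fun t k hk => ?_⟩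
  · rw [abs_le]
    have := hle t
    constructor <;> linarith [this.1, this.2]
  · have hi : ⌊N * k⌋ ∈ S := by
      rw [hS, Set.Finite.mem_toFinset]
      exact ⟨k, hk, rfl⟩
    have h4 := Int.floor_le (N * k)
    have h5 := Int.lt_floor_add_one (N * k)
    have h6 : (⌊N * k⌋ : ℝ) / N ≤ k := by
      rw [div_le_iff₀ hN]; linarith
    have h7 : k ≤ ((⌊N * k⌋ : ℝ) + 1) / N := by
      rw [le_div_iff₀ hN]; linarith
    rcases hav t _ hi with h | h
    · rw [le_abs]; right; linarith
    · rw [le_abs]; left; linarith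

/-- a discrete copy of the real line -/
structure T where
  /-- the underlying real number -/
  val : ℝ

instance : TopologicalSpace T := ⊥

instance : DiscreteTopology T := ⟨rfl⟩

/-- the closed set of bounded good functions -/
def GoodSet (H : Set ℝ) : Set (T →ᵇ ℝ) := {f | Good H (fun t => f ⟨t⟩)}

theorem isClosed_goodSet (H : Set ℝ) : IsClosed (GoodSet H) := by
  rw [← isSeqClosed_iff_isClosed]
  intro f g hf hfg
  have hpt : ∀ t : ℝ, Tendsto (fun n => f n ⟨t⟩) atTop (𝓝 (g ⟨t⟩)) := by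
    intro t
    exact ((BoundedContinuousFunction.lipschitz_eval_const (⟨t⟩ : T)).continuous.tendsto g).comp hfg
  constructor
  · intro x y hxy
    exact le_of_tendsto_of_tendsto' (hpt x) (hpt y) fun n => (hf n).mono hxy
  · intro t ht
    have hunif : TendstoUniformly (fun n (t : ℝ) => f n ⟨t⟩) (fun t : ℝ => g ⟨t⟩) atTop := by
      have := (BoundedContinuousFunction.tendsto_iff_tendstoUniformly.1 hfg)
      exact this.comp (fun t : ℝ => (⟨t⟩ : T))
    apply continuousAt_of_locally_uniform_approx_of_continuousAt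
    intro u hu
    obtain ⟨n, hn⟩ := (hunif u hu).exists
    exact ⟨univ, univ_mem, fun t : ℝ => f n ⟨t⟩, (hf n).cont t ht, fun y _ => hn y⟩

/-- the set of functions whose sheared graph stays away from `K` -/
def AvoidSet (H : Set ℝ) (a : ℝ) (K : Set ℝ) : Set (GoodSet H) :=
  {f | ∃ δ > 0, ∀ t : ℝ, ∀ k ∈ K, δ ≤ |a * t + f.1 ⟨t⟩ - k|}

theorem isOpen_avoidSet (H : Set ℝ) (a : ℝ) (K : Set ℝ) : IsOpen (AvoidSet H a K) := by
  rw [Metric.isOpen_iff]
  rintro f ⟨δ, hδ, hf⟩
  refine ⟨δ / 2, half_pos hδ, fun g hg => ⟨δ / 2, half_pos hδ, fun t k hk => ?_⟩⟩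
  have h1 : |g.1 ⟨t⟩ - f.1 ⟨t⟩| < δ / 2 := by
    have h2 : dist (g.1 ⟨t⟩) (f.1 ⟨t⟩) ≤ dist g.1 f.1 := BoundedContinuousFunction.dist_coe_le_dist _
    rw [Real.dist_eq] at h2
    exact lt_of_le_of_lt h2 (Metric.mem_ball.1 hg)
  have h3 := hf t k hk
  have h4 : |a * t + f.1 ⟨t⟩ - k| ≤ |a * t + g.1 ⟨t⟩ - k| + |g.1 ⟨t⟩ - f.1 ⟨t⟩| := by
    have : a * t + f.1 ⟨t⟩ - k = (a * t + g.1 ⟨t⟩ - k) - (g.1 ⟨t⟩ - f.1 ⟨t⟩) := by ring
    rw [this]
    exact abs_sub _ _
  linarith

theorem dense_avoidSet {H : Set ℝ} (hH : Dense H) {a : ℝ} (ha : 0 < a) {K : Set ℝ}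
    (hK : IsCompact K) (hK0 : volume K = 0) : Dense (AvoidSet H a K) := by
  rw [Metric.dense_iff]
  intro f r hr
  have hB : ∀ t : ℝ, |f.1 ⟨t⟩| ≤ ‖f.1‖ := fun t => by
    rw [← Real.norm_eq_abs]
    exact BoundedContinuousFunction.norm_coe_le_norm _ _
  obtain ⟨φ', hφ', hle, hav⟩ := avoid hH (φ := fun t => f.1 ⟨t⟩) f.2 hB ha hK hK0 (half_pos hr)
  have hbd : ∀ x : T, ‖φ' x.val‖ ≤ ‖f.1‖ + r / 2 := by
    intro x
    have h1 := hle x.val
    have h2 := hB x.val
    rw [Real.norm_eq_abs]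
    have : φ' x.val = (φ' x.val - f.1 ⟨x.val⟩) + f.1 ⟨x.val⟩ := by ring
    rw [this]
    exact (abs_add_le _ _).trans (by linarith)
  let g : T →ᵇ ℝ := BoundedContinuousFunction.ofNormedAddCommGroupDiscrete
    (fun x : T => φ' x.val) (‖f.1‖ + r / 2) hbd
  have hg : g ∈ GoodSet H := hφ'
  refine ⟨⟨g, hg⟩, ?_, hav⟩
  rw [Metric.mem_ball]
  have h5 : dist g f.1 ≤ r / 2 := by
    rw [BoundedContinuousFunction.dist_le (half_pos hr).le]
    intro x
    rw [Real.dist_eq]
    exact hle x.val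
  exact lt_of_le_of_lt h5 (half_lt_self hr)

/-- The main existence statement. -/
theorem exists_phi {H : Set ℝ} (hH : Dense H) (K : ℕ → Set ℝ) (hK : ∀ n, IsCompact (K n))
    (hK0 : ∀ n, volume (K n) = 0) :
    ∃ φ : ℝ → ℝ, Good H φ ∧ (∃ B, ∀ t, |φ t| ≤ B) ∧
      (∀ n, ∃ δ > 0, ∀ t, ∀ k ∈ K n, δ ≤ |2 * t + φ t - k|) ∧
      (∀ n, ∃ δ > 0, ∀ t, ∀ k ∈ K n, δ ≤ |1 * t + φ t - k|) := by
  have : CompleteSpace (GoodSet H) := (isClosed_goodSet H).completeSpace_coe
  have hne : Nonempty (GoodSet H) := by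
    refine ⟨⟨0, ?_, ?_⟩⟩
    · intro x y _; exact le_rfl
    · intro t _; exact continuousAt_const
  have h1 : Dense (⋂ p : ℕ × Bool, AvoidSet H (if p.2 then 2 else 1) (K p.1)) := by
    apply dense_iInter_of_isOpen
    · intro p; exact isOpen_avoidSet _ _ _
    · intro p
      apply dense_avoidSet hH _ (hK _) (hK0 _)
      split_ifs <;> norm_num
  obtain ⟨f, hf⟩ := h1.nonempty
  rw [mem_iInter] at hf
  refine ⟨fun t => f.1 ⟨t⟩, f.2, ⟨‖f.1‖, fun t => ?_⟩, fun n => ?_, fun n => ?_⟩
  · show |f.1 ⟨t⟩| ≤ ‖f.1‖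
    rw [← Real.norm_eq_abs]
    exact BoundedContinuousFunction.norm_coe_le_norm _ _
  · exact hf (n, true)
  · exact hf (n, false)

/-- Crossing times. -/
theorem cross {H : Set ℝ} {φ : ℝ → ℝ} (hφ : Good H φ) {B : ℝ}
    (hB : ∀ t, |φ t| ≤ B) {a : ℝ} (ha : 0 < a) {h δ : ℝ} (hδ : 0 < δ)
    (hav : ∀ t, δ ≤ |a * t + φ t - h|) :
    ∃ s ∈ H, (∀ t, t < s → a * t + φ t ≤ h - δ) ∧ (∀ t, s < t → h + δ ≤ a * t + φ t) := by
  have hEmono : ∀ x y, x ≤ y → a * x + φ x ≤ a * y + φ y := by
    intro x y hxy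
    have := hφ.mono hxy
    have := mul_le_mul_of_nonneg_left hxy ha.le
    linarith
  set T : Set ℝ := {t | a * t + φ t < h} with hT
  have hTne : T.Nonempty := by
    refine ⟨(h - B - 1) / a, ?_⟩
    have h1 : a * ((h - B - 1) / a) = h - B - 1 := by field_simp
    have h2 := (abs_le.1 (hB ((h - B - 1) / a))).2
    simp only [hT, mem_ofPred_eq]
    linarith
  have hTb : BddAbove T := by
    refine ⟨(h + B) / a, fun t ht => ?_⟩
    simp only [hT, mem_ofPred_eq] at ht
    have h2 := (abs_le.1 (hB t)).1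
    rw [le_div_iff₀ ha]
    nlinarith
  set s := sSup T with hs
  have hlt : ∀ t, t < s → a * t + φ t ≤ h - δ := by
    intro t ht
    obtain ⟨t', ht', htt'⟩ := exists_lt_of_lt_csSup hTne ht
    have h1 : a * t + φ t < h := lt_of_le_of_lt (hEmono t t' htt'.le) ht'
    have h2 := hav t
    rw [le_abs] at h2
    rcases h2 with h2 | h2 <;> linarith
  have hgt : ∀ t, s < t → h + δ ≤ a * t + φ t := by
    intro t ht
    have h1 : h ≤ a * t + φ t := by
      by_contra hcon
      exact absurd (le_csSup hTb (show t ∈ T from not_le.1 hcon)) (not_le.2 ht)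
    have h2 := hav t
    rw [le_abs] at h2
    rcases h2 with h2 | h2 <;> linarith
  refine ⟨s, ?_, hlt, hgt⟩
  by_contra hsH
  have hc : ContinuousAt (fun t => a * t + φ t) s :=
    (continuousAt_const.mul continuousAt_id).add (hφ.cont s hsH)
  have h3 : h + δ ≤ a * s + φ s := by
    have h1 : Tendsto (fun t => a * t + φ t) (𝓝[>] s) (𝓝 (a * s + φ s)) :=
      hc.tendsto.mono_left nhdsWithin_le_nhds
    refine ge_of_tendsto h1 ?_
    filter_upwards [self_mem_nhdsWithin] with t ht
    exact hgt t ht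
  have h4 : a * s + φ s ≤ h - δ := by
    have h1 : Tendsto (fun t => a * t + φ t) (𝓝[<] s) (𝓝 (a * s + φ s)) :=
      hc.tendsto.mono_left nhdsWithin_le_nhds
    refine le_of_tendsto h1 ?_
    filter_upwards [self_mem_nhdsWithin] with t ht
    exact hlt t ht
  linarith

/-- The null case. -/
theorem null_case (H : AddSubgroup ℝ) (hH : Dense (H : Set ℝ)) (K : ℕ → Set ℝ)
    (hK : ∀ n, IsCompact (K n)) (hK0 : ∀ n, volume (K n) = 0) (hHK : (H : Set ℝ) = ⋃ n, K n) :
    ∃ f : H → H, Function.Bijective f ∧ (∀ x y, dist (f x) (f y) ≤ dist x y) ∧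
      ∃ x y, dist (f x) (f y) ≠ dist x y := by
  obtain ⟨φ, hφ, ⟨B, hB⟩, h2, h1⟩ := exists_phi hH K hK hK0
  have c2 : ∀ h : H, ∃ s : H, ∃ δ > 0, (∀ t, t < s.1 → 2 * t + φ t ≤ h - δ) ∧
      (∀ t, s.1 < t → h + δ ≤ 2 * t + φ t) := by
    intro h
    have hm : (h : ℝ) ∈ ⋃ n, K n := by rw [← hHK]; exact h.2
    obtain ⟨n, hn⟩ := mem_iUnion.1 hm
    obtain ⟨δ, hδ, hav⟩ := h2 n
    obtain ⟨s, hs, h3, h4⟩ := cross hφ hB two_pos hδ (fun t => hav t h hn)
    exact ⟨⟨s, hs⟩, δ, hδ, h3, h4⟩
  have c1 : ∀ h : H, ∃ s : H, ∃ δ > 0, (∀ t, t < s.1 → 1 * t + φ t ≤ h - δ) ∧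
      (∀ t, s.1 < t → h + δ ≤ 1 * t + φ t) := by
    intro h
    have hm : (h : ℝ) ∈ ⋃ n, K n := by rw [← hHK]; exact h.2
    obtain ⟨n, hn⟩ := mem_iUnion.1 hm
    obtain ⟨δ, hδ, hav⟩ := h1 n
    obtain ⟨s, hs, h3, h4⟩ := cross hφ hB one_pos hδ (fun t => hav t h hn)
    exact ⟨⟨s, hs⟩, δ, hδ, h3, h4⟩
  choose τ δ hδ hlt hgt using c2
  -- monotonicity and the Lipschitz bound for `τ`
  have hmono : ∀ h h' : H, (h : ℝ) < h' → (τ h : ℝ) ≤ τ h' ∧
      2 * ((τ h' : ℝ) - τ h) ≤ (h' : ℝ) - h := by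
    intro h h' hh
    have A : (τ h : ℝ) ≤ τ h' := by
      by_contra hcon
      push Not at hcon
      obtain ⟨t, ht1, ht2⟩ := exists_between hcon
      have e1 := hlt h t ht2
      have e2 := hgt h' t ht1
      have e3 := hδ h
      have e4 := hδ h'
      linarith
    refine ⟨A, ?_⟩
    by_contra hcon
    push Not at hcon
    set d : ℝ := 2 * ((τ h' : ℝ) - τ h) - ((h' : ℝ) - h) with hd
    have hd0 : 0 < d := by linarith
    have hAlt : (τ h : ℝ) < τ h' := by linarith
    set η : ℝ := min (d / 8) (((τ h' : ℝ) - τ h) / 4) with hη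
    have hη0 : 0 < η := lt_min (by linarith) (by linarith)
    have hη1 : η ≤ d / 8 := min_le_left _ _
    have hη2 : η ≤ ((τ h' : ℝ) - τ h) / 4 := min_le_right _ _
    have e1 := hgt h (τ h + η) (by linarith)
    have e2 := hlt h' (τ h' - η) (by linarith)
    have e3 := hφ.mono (show (τ h : ℝ) + η ≤ τ h' - η by linarith)
    have e4 := hδ h
    have e5 := hδ h'
    linarith
  let F : H → H := fun h => h - τ h
  have hF : ∀ h, ((F h : H) : ℝ) = (h : ℝ) - τ h := fun h => by
    simp [F]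
  have hFle : ∀ h h' : H, (h : ℝ) < h' → 0 < (F h' : ℝ) - F h ∧
      (F h' : ℝ) - F h ≤ (h' : ℝ) - h := by
    intro h h' hh
    rw [hF, hF]
    have := hmono h h' hh
    constructor <;> linarith [this.1, this.2]
  refine ⟨F, ⟨?_, ?_⟩, ?_, ?_⟩
  · intro h h' hh
    by_contra hne
    have hne' : (h : ℝ) ≠ h' := fun e => hne (Subtype.ext e)
    rcases lt_or_gt_of_ne hne' with hl | hl
    · have := (hFle h h' hl).1
      rw [hh] at this
      linarith
    · have := (hFle h' h hl).1
      rw [hh] at this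
      linarith
  · intro y
    obtain ⟨s, δ', hδ', h3, h4⟩ := c1 y
    refine ⟨y + s, ?_⟩
    have hcoe : ((y + s : H) : ℝ) = y + s := rfl
    have hs : (τ (y + s) : ℝ) = s := by
      apply le_antisymm
      · by_contra hcon
        push Not at hcon
        obtain ⟨t, ht1, ht2⟩ := exists_between hcon
        have e1 := hlt (y + s) t ht2
        have e2 := h4 t ht1
        have e3 := hδ (y + s)
        rw [hcoe] at e1
        linarith
      · by_contra hcon
        push Not at hcon
        obtain ⟨t, ht1, ht2⟩ := exists_between hcon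
        have e1 := hgt (y + s) t ht1
        have e2 := h3 t ht2
        have e3 := hδ (y + s)
        rw [hcoe] at e1
        linarith
    apply Subtype.ext
    rw [hF, hs, hcoe]
    ring
  · have key : ∀ h h' : H, (h : ℝ) < h' → dist (F h) (F h') ≤ dist h h' := by
      intro h h' hh
      have := hFle h h' hh
      rw [Subtype.dist_eq, Subtype.dist_eq, Real.dist_eq, Real.dist_eq, abs_sub_comm,
        abs_of_pos this.1, abs_sub_comm, abs_of_pos (by linarith)]
      exact this.2
    intro h h'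
    rcases lt_trichotomy (h : ℝ) h' with hl | hl | hl
    · exact key h h' hl
    · rw [Subtype.ext hl]
      simp
    · rw [dist_comm (F h), dist_comm h]
      exact key h' h hl
  · -- a large element
    obtain ⟨h, hhH, hh⟩ := hH.exists_mem_open isOpen_Ioi (nonempty_Ioi (a := |B| + 2 + 2 * |(τ 0 : ℝ)|))
    simp only [mem_Ioi] at hh
    have hBB := le_abs_self B
    have hpos : (0 : ℝ) < h := by
      have := abs_nonneg B
      have := abs_nonneg (τ 0 : ℝ)
      linarith
    refine ⟨0, ⟨h, hhH⟩, ?_⟩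
    have hτ : (τ 0 : ℝ) < τ ⟨h, hhH⟩ := by
      by_contra hcon
      push Not at hcon
      have e1 := hgt ⟨h, hhH⟩ (|(τ 0 : ℝ)| + 1) (by linarith [le_abs_self (τ 0 : ℝ)])
      have e2 := (abs_le.1 (hB (|(τ 0 : ℝ)| + 1))).2
      have e3 := hδ ⟨h, hhH⟩
      simp only at e1
      linarith
    have h5 := hFle 0 ⟨h, hhH⟩ hpos
    rw [Subtype.dist_eq, Subtype.dist_eq, Real.dist_eq, Real.dist_eq, abs_sub_comm,
      abs_of_pos h5.1, abs_sub_comm]
    simp only [AddSubgroup.coe_zero, sub_zero] at h5 ⊢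
    rw [abs_of_pos hpos, hF, hF]
    simp only [AddSubgroup.coe_zero]
    intro h6
    linarith

/-- Every dense σ-compact subgroup of the line has a nonexpansive bijection which is not an
isometry. -/
theorem main (H : AddSubgroup ℝ) (hH : Dense (H : Set ℝ)) (hσ : IsSigmaCompact (H : Set ℝ)) :
    ∃ f : H → H, Function.Bijective f ∧ (∀ x y, dist (f x) (f y) ≤ dist x y) ∧
      ∃ x y, dist (f x) (f y) ≠ dist x y := by
  obtain ⟨K, hK, hHK⟩ := hσ
  by_cases hnull : ∀ n, volume (K n) = 0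
  · exact null_case H hH K hK hnull hHK.symm
  · push Not at hnull
    obtain ⟨n, hn⟩ := hnull
    have hmeas : MeasurableSet (K n) := (hK n).isClosed.measurableSet
    have h1 : K n - K n ∈ 𝓝 (0 : ℝ) :=
      MeasureTheory.Measure.sub_mem_nhds_zero_of_addHaar_pos (volume : Measure ℝ) (K n) hmeas
        (pos_iff_ne_zero.2 hn)
    have h2 : (H : Set ℝ) ∈ 𝓝 (0 : ℝ) := by
      refine mem_of_superset h1 ?_
      rintro _ ⟨x, hx, y, hy, rfl⟩
      have hx' : x ∈ (H : Set ℝ) := by rw [← hHK]; exact mem_iUnion.2 ⟨n, hx⟩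
      have hy' : y ∈ (H : Set ℝ) := by rw [← hHK]; exact mem_iUnion.2 ⟨n, hy⟩
      exact H.sub_mem hx' hy'
    have hopen : IsOpen (H : Set ℝ) := AddSubgroup.isOpen_of_mem_nhds H h2
    have hclosed : IsClosed (H : Set ℝ) := AddSubgroup.isClosed_of_isOpen H hopen
    have htop : ∀ x : ℝ, x ∈ H := by
      intro x
      have : (H : Set ℝ) = univ := by rw [← hclosed.closure_eq, hH.closure_eq]
      show x ∈ (H : Set ℝ)
      rw [this]
      trivial
    refine ⟨fun x => ⟨x.1 / 2, htop _⟩, ⟨?_, ?_⟩, ?_, ?_⟩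
    · intro x y hxy
      have := congrArg Subtype.val hxy
      simp only at this
      exact Subtype.ext (by linarith)
    · intro y
      exact ⟨⟨2 * y.1, htop _⟩, Subtype.ext (by simp)⟩
    · intro x y
      rw [Subtype.dist_eq, Subtype.dist_eq, Real.dist_eq, Real.dist_eq]
      simp only
      rw [← sub_div, abs_div, abs_two]
      have := abs_nonneg (x.1 - y.1)
      linarith
    · refine ⟨⟨0, htop 0⟩, ⟨2, htop 2⟩, ?_⟩
      rw [Subtype.dist_eq, Subtype.dist_eq, Real.dist_eq, Real.dist_eq]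
      norm_num

end Pool.Agent.H77.PlasticAux
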